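import Mathlib
import Pool.Agent.Helper281.ConfProof

/-!
# The generic action of the free group on two generators on Cantor space is hyperfinite

* `Pointed f g p` : `p` is a continuous pointing map `X → Bool × Bool`, the four values being the
  letters `s, s⁻¹, t, t⁻¹`, such that along every edge `x — f x` or `x — g x` of the Schreier graph
  one of the two end points points to the other.
* If a pair has a pointing map then its orbit relation is the tail equivalence relation of the map
  `φ` following the pointer, hence hyperfinite (`hyperfinite_of_pointed`).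
* The set of the pairs with a continuous pointing map is open (`isOpen_pointed`) and dense
  (`dense_pointed`): Thompson's group `V` contains a ping-pong pair, and every pair of
  homeomorphisms is a limit of copies of its product with the ping-pong pair.
-/

open Set Filter Topology Function

namespace Pool.Agent.Y566.GenF2

abbrev X : Type := ℕ → Bool

/-- pointing maps -/
structure Pointed {Z : Type} (f g : Z → Z) (p : Z → Bool × Bool) : Prop where
  s : ∀ x, p x ≠ (false, false) → p (f x) = (false, true)
  t : ∀ x, p x ≠ (true, false) → p (g x) = (true, true)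

/-! ### hyperfiniteness -/

section Hyp

variable (f g : Equiv.Perm X) (p : X → Bool × Bool)

/-- action of a letter -/
def lett (f g : Equiv.Perm X) : Bool × Bool → Equiv.Perm X
  | (false, false) => f
  | (false, true) => f⁻¹
  | (true, false) => g
  | (true, true) => g⁻¹

def phi (x : X) : X := lett f g (p x) x

theorem phi_f (h : Pointed f g p) (x : X) : phi f g p x = f x ∨ phi f g p (f x) = x := by
  by_cases h1 : p x = (false, false)
  · left
    simp [phi, h1, lett]
  · right
    simp [phi, h.s x h1, lett]

theorem phi_g (h : Pointed f g p) (x : X) : phi f g p x = g x ∨ phi f g p (g x) = x := by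
  by_cases h1 : p x = (true, false)
  · left
    simp [phi, h1, lett]
  · right
    simp [phi, h.t x h1, lett]

/-- words -/
def wordEval (f g : Equiv.Perm X) (w : List (Bool × Bool)) : Equiv.Perm X := (w.map (lett f g)).prod

theorem lett_mem (c : Bool × Bool) : lett f g c ∈ Subgroup.closure ({f, g} : Set (Equiv.Perm X)) := by
  have hf : f ∈ Subgroup.closure ({f, g} : Set (Equiv.Perm X)) := Subgroup.subset_closure (by simp)
  have hg : g ∈ Subgroup.closure ({f, g} : Set (Equiv.Perm X)) := Subgroup.subset_closure (by simp)
  rcases c with ⟨a, b⟩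
  cases a <;> cases b <;> simp only [lett]
  · exact hf
  · exact inv_mem hf
  · exact hg
  · exact inv_mem hg

def tailRel (φ : X → X) (x y : X) : Prop := ∃ m n, φ^[m] x = φ^[n] y

theorem tailRel_refl (φ : X → X) (x : X) : tailRel φ x x := ⟨0, 0, rfl⟩

theorem tailRel_symm {φ : X → X} {x y : X} (h : tailRel φ x y) : tailRel φ y x := by
  obtain ⟨m, n, h⟩ := h
  exact ⟨n, m, h.symm⟩

theorem tailRel_trans {φ : X → X} {x y z : X} (h1 : tailRel φ x y) (h2 : tailRel φ y z) :
    tailRel φ x z := by
  obtain ⟨m, n, h⟩ := h1
  obtain ⟨m', n', h'⟩ := h2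
  refine ⟨m' + m, n + n', ?_⟩
  rw [iterate_add_apply, h, ← iterate_add_apply, add_comm m' n, iterate_add_apply, h',
    ← iterate_add_apply]

theorem orbit_iff_tail (h : Pointed f g p) (x y : X) :
    (∃ σ ∈ Subgroup.closure ({f, g} : Set (Equiv.Perm X)), σ x = y) ↔
      tailRel (phi f g p) x y := by
  constructor
  · rintro ⟨σ, hσ, rfl⟩
    revert x
    induction hσ using Subgroup.closure_induction with
    | mem σ hσ =>
      intro x
      rcases hσ with rfl | hσ
      · rcases phi_f σ g p h x with h1 | h1
        · exact ⟨1, 0, by simpa using h1⟩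
        · exact ⟨0, 1, by simpa using h1.symm⟩
      · rw [mem_singleton_iff] at hσ
        subst hσ
        rcases phi_g f σ p h x with h1 | h1
        · exact ⟨1, 0, by simpa using h1⟩
        · exact ⟨0, 1, by simpa using h1.symm⟩
    | one => intro x; exact tailRel_refl _ _
    | mul σ τ _ _ ih1 ih2 =>
      intro x
      exact tailRel_trans (ih2 x) (ih1 (τ x))
    | inv σ _ ih =>
      intro x
      have := ih (σ⁻¹ x)
      have e : σ (σ⁻¹ x) = x := σ.apply_symm_apply x
      rw [e] at this
      exact tailRel_symm this
  · rintro ⟨m, n, hmn⟩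
    have key : ∀ (m : ℕ) (x : X), ∃ σ ∈ Subgroup.closure ({f, g} : Set (Equiv.Perm X)),
        σ x = (phi f g p)^[m] x := by
      intro m
      induction m with
      | zero => intro x; exact ⟨1, one_mem _, rfl⟩
      | succ m ih =>
        intro x
        obtain ⟨σ, hσ, h1⟩ := ih (phi f g p x)
        refine ⟨σ * lett f g (p x), mul_mem hσ (lett_mem f g _), ?_⟩
        rw [Equiv.Perm.mul_apply, iterate_succ_apply, ← h1]
        rfl
    obtain ⟨σ, hσ, h1⟩ := key m x
    obtain ⟨τ, hτ, h2⟩ := key n y
    refine ⟨τ⁻¹ * σ, mul_mem (inv_mem hτ) hσ, ?_⟩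
    rw [Equiv.Perm.mul_apply, h1, hmn, ← h2]
    exact τ.symm_apply_apply y

theorem closure_words (σ : Equiv.Perm X)
    (hσ : σ ∈ Subgroup.closure ({f, g} : Set (Equiv.Perm X))) :
    ∃ w, wordEval f g w = σ := by
  have hinv : ∀ c, ∃ c', (lett f g c)⁻¹ = lett f g c' := by
    rintro ⟨a, b⟩
    refine ⟨(a, !b), ?_⟩
    cases a <;> cases b <;> simp [lett]
  induction hσ using Subgroup.closure_induction with
  | mem σ hσ =>
    rcases hσ with rfl | hσ
    · exact ⟨[(false, false)], by simp [wordEval, lett]⟩
    · rw [mem_singleton_iff] at hσ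
      subst hσ
      exact ⟨[(true, false)], by simp [wordEval, lett]⟩
  | one => exact ⟨[], by simp [wordEval]⟩
  | mul σ τ _ _ ih1 ih2 =>
    obtain ⟨w, rfl⟩ := ih1
    obtain ⟨v, rfl⟩ := ih2
    exact ⟨w ++ v, by simp [wordEval]⟩
  | inv σ hs ih =>
    obtain ⟨w, rfl⟩ := ih
    clear hs
    induction w with
    | nil => exact ⟨[], by simp [wordEval]⟩
    | cons c w ih =>
      obtain ⟨v, hv⟩ := ih
      obtain ⟨c', hc'⟩ := hinv c
      refine ⟨v ++ [c'], ?_⟩
      simp only [wordEval, List.map_append, List.prod_append, List.map_cons, List.map_nil,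
        List.prod_cons, List.prod_nil, mul_one, mul_inv_rev] at hv ⊢
      rw [hv, hc']

theorem hyperfinite_of_pointed (hf : Measurable f) (hf' : Measurable (f⁻¹ : Equiv.Perm X))
    (hg : Measurable g) (hg' : Measurable (g⁻¹ : Equiv.Perm X)) (hp : Measurable p)
    (h : Pointed f g p) :
    Pool.Agent.Helper281.Conformal.Hyperfinite
      (fun x y : X => ∃ σ ∈ Subgroup.closure ({f, g} : Set (Equiv.Perm X)), σ x = y) := by
  have hl : ∀ c, Measurable (lett f g c) := by
    rintro ⟨a, b⟩
    cases a <;> cases b <;> simpa only [lett]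
  have hw : ∀ w, Measurable (wordEval f g w) := by
    intro w
    induction w with
    | nil => simpa [wordEval] using measurable_id
    | cons c w ih =>
      have : (wordEval f g (c :: w) : X → X) = lett f g c ∘ wordEval f g w := by
        funext x
        simp [wordEval]
      rw [this]
      exact (hl c).comp ih
  have hφ : Measurable (phi f g p) := by
    have h1 : Measurable (fun q : X × (Bool × Bool) => lett f g q.2 q.1) :=
      measurable_from_prod_countable_left (fun c => hl c)
    exact h1.comp (measurable_id.prodMk hp)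
  obtain ⟨en, hen⟩ := exists_surjective_nat (List (Bool × Bool))
  refine Pool.Agent.Helper281.Conformal.hyperfinite_tail (fun i => wordEval f g (en i))
    (fun i => hw _) (phi f g p) hφ _ (fun x y => orbit_iff_tail f g p h x y) ?_
  rintro x y ⟨σ, hσ, rfl⟩
  obtain ⟨w, rfl⟩ := closure_words f g σ hσ
  obtain ⟨i, rfl⟩ := hen w
  exact ⟨i, rfl⟩

end Hyp

end Pool.Agent.Y566.GenF2
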