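import Mathlib
import Pool.Agent.Y566.GenF2

/-! # The pairs of homeomorphisms with a continuous pointing map form an open dense set -/

open Set Filter Topology Function
open scoped Uniformity

namespace Pool.Agent.Y566.GenF2

abbrev Pairs : Type := {p : C(ℕ → Bool, ℕ → Bool) × C(ℕ → Bool, ℕ → Bool) //
          Function.Bijective (p.1 : (ℕ → Bool) → (ℕ → Bool)) ∧
          Function.Bijective (p.2 : (ℕ → Bool) → (ℕ → Bool))}

def O : Set Pairs := {q | ∃ p : C(X, Bool × Bool), Pointed q.1.1 q.1.2 p}

/-! ### openness -/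

theorem isOpen_same {D : Type} [TopologicalSpace D] [DiscreteTopology D] [Finite D]
    (p : C(X, D)) (h₀ : C(X, X)) : IsOpen {h : C(X, X) | ∀ x, p (h x) = p (h₀ x)} := by
  have : {h : C(X, X) | ∀ x, p (h x) = p (h₀ x)} =
      ⋂ c : D, {h : C(X, X) | MapsTo h (h₀ ⁻¹' (p ⁻¹' {c})) (p ⁻¹' {c})} := by
    ext h
    simp only [mem_ofPred_eq, mem_iInter]
    constructor
    · intro hh c x hx
      simp only [mem_preimage, mem_singleton_iff] at hx ⊢
      rw [hh x, hx]
    · intro hh x
      have := hh (p (h₀ x)) (x := x) rfl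
      exact this
  rw [this]
  refine isOpen_iInter_of_finite fun c => ?_
  apply ContinuousMap.isOpen_setOfPred_mapsTo
  · have h1 : IsClosed (p ⁻¹' {c}) := (isClosed_discrete _).preimage p.continuous
    exact (h1.preimage h₀.continuous).isCompact
  · exact (isOpen_discrete _).preimage p.continuous

theorem isOpen_O : IsOpen O := by
  rw [isOpen_iff_mem_nhds]
  rintro q₀ ⟨p, hp⟩
  have h1 : IsOpen {q : Pairs | (∀ x, p (q.1.1 x) = p (q₀.1.1 x)) ∧ (∀ x, p (q.1.2 x) = p (q₀.1.2 x))} := by
    refine IsOpen.inter ?_ ?_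
    · exact (isOpen_same p q₀.1.1).preimage (continuous_fst.comp continuous_subtype_val)
    · exact (isOpen_same p q₀.1.2).preimage (continuous_snd.comp continuous_subtype_val)
  refine mem_of_superset (h1.mem_nhds ⟨fun _ => rfl, fun _ => rfl⟩) ?_
  rintro q ⟨h2, h3⟩
  refine ⟨p, ?_, ?_⟩
  · intro x hx
    rw [h2]
    exact hp.s x hx
  · intro x hx
    rw [h3]
    exact hp.t x hx

/-! ### uniformity of Cantor space -/

def agree (N : ℕ) : Set (X × X) := {p | ∀ i < N, p.1 i = p.2 i}

theorem agree_mem (N : ℕ) : agree N ∈ 𝓤 X := by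
  have h1 : ∀ i : ℕ, {p : X × X | p.1 i = p.2 i} ∈ 𝓤 X := by
    intro i
    have h2 : UniformContinuous (fun x : X => x i) := Pi.uniformContinuous_proj _ i
    have h3 : {p : Bool × Bool | p.1 = p.2} ∈ 𝓤 Bool := by
      have : (𝓤 Bool) = 𝓟 SetRel.id := rfl
      rw [this]
      intro p hp
      exact hp
    exact h2 h3
  have h2 : agree N = ⋂ i ∈ Set.Iio N, {p : X × X | p.1 i = p.2 i} := by
    ext p
    simp [agree]
  rw [h2]
  exact (Filter.biInter_mem (Set.finite_Iio N)).2 (fun i _ => h1 i)

theorem exists_agree_subset {u : Set (X × X)} (hu : u ∈ 𝓤 X) : ∃ N, agree N ⊆ u := by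
  have h1 : (⨅ N, 𝓟 (agree N)) ≤ 𝓤 X := by
    rw [Pi.uniformity]
    refine le_iInf fun i => ?_
    intro s hs
    obtain ⟨v, hv, hvs⟩ := hs
    refine mem_iInf_of_mem (i + 1) ?_
    rw [mem_principal]
    intro p hp
    apply hvs
    have : p.1 i = p.2 i := hp i (by omega)
    simp only [mem_preimage]
    rw [this]
    exact refl_mem_uniformity hv
  have h2 : u ∈ (⨅ N, 𝓟 (agree N)) := h1 hu
  rw [mem_iInf_of_directed] at h2
  · obtain ⟨N, hN⟩ := h2
    exact ⟨N, hN⟩
  · intro a b
    refine ⟨max a b, ?_, ?_⟩
    · refine principal_mono.2 ?_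
      intro p hp i hi
      exact hp i (lt_of_lt_of_le hi (le_max_left _ _))
    · refine principal_mono.2 ?_
      intro p hp i hi
      exact hp i (lt_of_lt_of_le hi (le_max_right _ _))

theorem exists_modulus (f : C(X, X)) (K : ℕ) :
    ∃ N, ∀ a b : X, (∀ i < N, a i = b i) → ∀ i < K, f a i = f b i := by
  have h1 : UniformContinuous f := CompactSpace.uniformContinuous_of_continuous f.continuous
  obtain ⟨N, hN⟩ := exists_agree_subset (h1 (agree_mem K))
  exact ⟨N, fun a b hab => hN (show (a, b) ∈ agree N from hab)⟩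

theorem tendsto_of_agree (F : ℕ → C(X, X)) (f : C(X, X))
    (h : ∀ K, ∀ᶠ n in atTop, ∀ x, ∀ i < K, f x i = F n x i) : Tendsto F atTop (𝓝 f) := by
  rw [ContinuousMap.tendsto_iff_tendstoUniformly]
  intro u hu
  obtain ⟨N, hN⟩ := exists_agree_subset hu
  filter_upwards [h N] with n hn x
  exact hN (show (f x, F n x) ∈ agree N from hn x)

/-! ### the ping-pong homeomorphisms -/

/-- prepend a bit -/
def cons (b : Bool) (y : X) : X := fun n => Nat.casesOn n b y

/-- remove the first bit -/
def tl (y : X) : X := fun n => y (n + 1)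

@[simp] theorem cons_zero (b : Bool) (y : X) : cons b y 0 = b := rfl
@[simp] theorem cons_succ (b : Bool) (y : X) (n : ℕ) : cons b y (n + 1) = y n := rfl
@[simp] theorem cons_one (b : Bool) (y : X) : cons b y 1 = y 0 := rfl
@[simp] theorem cons_two (b : Bool) (y : X) : cons b y 2 = y 1 := rfl
@[simp] theorem tl_cons (b : Bool) (y : X) : tl (cons b y) = y := rfl
@[simp] theorem tl_apply (y : X) (n : ℕ) : tl y n = y (n + 1) := rfl
theorem cons_tl (y : X) : cons (y 0) (tl y) = y := by
  funext n
  cases n <;> rfl

theorem cons_tl' {y : X} {b : Bool} (h : y 0 = b) : cons b (tl y) = y := by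
  rw [← h, cons_tl]

theorem continuous_cons (b : Bool) : Continuous (cons b) := by
  refine continuous_pi fun n => ?_
  cases n with
  | zero => exact continuous_const
  | succ n => exact continuous_apply n

theorem continuous_tl : Continuous tl := continuous_pi fun n => continuous_apply (n + 1)

def sgen (y : X) : X :=
  if y 0 then cons false (cons true y)
  else if y 1 then cons false (cons true (cons false (tl (tl y))))
  else if y 2 then tl (tl y)
  else tl y

def sinv (y : X) : X :=
  if y 0 then cons false (cons false y)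
  else if y 1 then (if y 2 then tl (tl y) else cons false (cons true (tl (tl (tl y)))))
  else cons false y

theorem sinv_sgen (y : X) : sinv (sgen y) = y := by
  have e0 := cons_tl y
  have e1 := cons_tl (tl y)
  have e2 := cons_tl (tl (tl y))
  simp only [tl_apply] at e1 e2
  rcases h0 : y 0 <;> rcases h1 : y 1 <;> rcases h2 : y 2 <;>
    simp [sgen, sinv, h0, h1, h2] <;> simp_all

theorem sgen_sinv (y : X) : sgen (sinv y) = y := by
  have e0 := cons_tl y
  have e1 := cons_tl (tl y)
  have e2 := cons_tl (tl (tl y))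
  simp only [tl_apply] at e1 e2
  rcases h0 : y 0 <;> rcases h1 : y 1 <;> rcases h2 : y 2 <;>
    simp [sgen, sinv, h0, h1, h2] <;> simp_all

theorem continuous_sgen : Continuous sgen := by
  have h : Continuous (fun q : (Bool × Bool × Bool) × X =>
      (if q.1.1 then cons false (cons true q.2)
        else if q.1.2.1 then cons false (cons true (cons false (tl (tl q.2))))
        else if q.1.2.2 then tl (tl q.2)
        else tl q.2 : X)) := by
    rw [continuous_prod_of_discrete_left]
    rintro ⟨a, b, c⟩
    have c1 := continuous_cons false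
    have c2 := continuous_cons true
    have c3 := continuous_tl
    cases a <;> cases b <;> cases c <;> simp only [Bool.false_eq_true, if_false, if_true] <;>
      fun_prop
  have h2 : Continuous (fun y : X => (((y 0, y 1, y 2) : Bool × Bool × Bool), y)) :=
    ((continuous_apply 0).prodMk ((continuous_apply 1).prodMk (continuous_apply 2))).prodMk
      continuous_id
  exact h.comp h2

/-- the pointing map of the ping-pong pair -/
def pY (y : X) : Bool × Bool := (y 0, y 1)

/-- flip the first bit -/
def rho (y : X) : X := cons (!(y 0)) (tl y)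

theorem rho_rho (y : X) : rho (rho y) = y := by
  simp [rho, cons_tl]

theorem continuous_rho : Continuous rho := by
  refine continuous_pi fun n => ?_
  cases n with
  | zero => exact (continuous_of_discreteTopology (f := not)).comp (continuous_apply 0)
  | succ n => exact continuous_apply (n + 1)

def tgen (y : X) : X := rho (sgen (rho y))

theorem pointed_Y : Pointed sgen tgen pY := by
  have hs : ∀ x, pY x ≠ (false, false) → pY (sgen x) = (false, true) := by
    intro y hy
    simp only [pY, ne_eq, Prod.mk.injEq, not_and, Bool.not_eq_false] at hy ⊢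
    rcases h0 : y 0 <;> rcases h1 : y 1 <;> simp_all [sgen]
  refine ⟨hs, ?_⟩
  intro y hy
  have h1 : pY (rho y) ≠ (false, false) := by
    intro h
    apply hy
    simp only [pY, rho, cons_zero, cons_one, tl_apply, Prod.mk.injEq, Bool.not_eq_false'] at h ⊢
    exact h
  have h2 := hs _ h1
  simp only [pY, Prod.mk.injEq] at h2
  have h3 : tgen y = cons (!(sgen (rho y) 0)) (tl (sgen (rho y))) := rfl
  rw [h3]
  simp [pY, h2.1, h2.2]

theorem bij_sgen : Bijective sgen :=
  ⟨LeftInverse.injective sinv_sgen, RightInverse.surjective sgen_sinv⟩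

theorem bij_rho : Bijective rho :=
  ⟨LeftInverse.injective rho_rho, RightInverse.surjective rho_rho⟩

theorem bij_tgen : Bijective tgen := bij_rho.comp (bij_sgen.comp bij_rho)

theorem continuous_tgen : Continuous tgen :=
  continuous_rho.comp (continuous_sgen.comp continuous_rho)

/-! ### interleaving homeomorphisms -/

def aa (n i : ℕ) : ℕ ⊕ ℕ :=
  if i < n then .inl i else if (i - n) % 2 = 0 then .inl (n + (i - n) / 2) else .inr ((i - n) / 2)

def bb (n : ℕ) : ℕ ⊕ ℕ → ℕ
  | .inl j => if j < n then j else n + 2 * (j - n)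
  | .inr j => n + 2 * j + 1

theorem bb_aa (n i : ℕ) : bb n (aa n i) = i := by
  unfold aa
  split_ifs with h1 h2
  · simp [bb, h1]
  · simp only [bb]
    split_ifs <;> omega
  · simp only [bb]
    omega

theorem aa_bb (n : ℕ) (c : ℕ ⊕ ℕ) : aa n (bb n c) = c := by
  rcases c with j | j
  · unfold bb aa
    dsimp only
    by_cases h1 : j < n
    · simp [h1]
    · have h2 : ¬ (n + 2 * (j - n) < n) := by omega
      have h3 : (n + 2 * (j - n) - n) % 2 = 0 := by omega
      have h4 : n + (n + 2 * (j - n) - n) / 2 = j := by omega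
      simp only [h1, if_false, h2, h3, if_true, h4]
  · unfold bb aa
    dsimp only
    have h2 : ¬ (n + 2 * j + 1 < n) := by omega
    have h3 : ¬ ((n + 2 * j + 1 - n) % 2 = 0) := by omega
    have h4 : (n + 2 * j + 1 - n) / 2 = j := by omega
    simp only [h2, if_false, h3, h4]

/-- the interleaving map -/
def hh (n : ℕ) (z : X × X) : X := fun i => Sum.elim z.1 z.2 (aa n i)

def fstp (n : ℕ) (x : X) : X := fun j => x (bb n (.inl j))
def sndp (n : ℕ) (x : X) : X := fun j => x (bb n (.inr j))

theorem hh_split (n : ℕ) (x : X) : hh n (fstp n x, sndp n x) = x := by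
  funext i
  have h : ∀ c, Sum.elim (fstp n x) (sndp n x) c = x (bb n c) := by
    rintro (j | j) <;> rfl
  simp only [hh]
  rw [h, bb_aa]

theorem fstp_hh (n : ℕ) (z : X × X) : fstp n (hh n z) = z.1 := by
  funext j
  simp [fstp, hh, aa_bb]

theorem sndp_hh (n : ℕ) (z : X × X) : sndp n (hh n z) = z.2 := by
  funext j
  simp [sndp, hh, aa_bb]

theorem fstp_agree (n : ℕ) (x : X) (i : ℕ) (hi : i < n) : fstp n x i = x i := by
  simp [fstp, bb, hi]

theorem hh_agree (n : ℕ) (z : X × X) (i : ℕ) (hi : i < n) : hh n z i = z.1 i := by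
  simp [hh, aa, hi]

theorem continuous_hh (n : ℕ) : Continuous (hh n) := by
  refine continuous_pi fun i => ?_
  simp only [hh]
  rcases aa n i with j | j
  · exact (continuous_apply j).comp continuous_fst
  · exact (continuous_apply j).comp continuous_snd

theorem continuous_fstp (n : ℕ) : Continuous (fstp n) := continuous_pi fun _ => continuous_apply _
theorem continuous_sndp (n : ℕ) : Continuous (sndp n) := continuous_pi fun _ => continuous_apply _

/-- product action transported to `X` -/
def mix (n : ℕ) (f : C(X, X)) (s : C(X, X)) : C(X, X) :=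
  ⟨fun x => hh n (f (fstp n x), s (sndp n x)),
    (continuous_hh n).comp ((f.continuous.comp (continuous_fstp n)).prodMk
      (s.continuous.comp (continuous_sndp n)))⟩

theorem mix_apply (n : ℕ) (f s : C(X, X)) (x : X) :
    mix n f s x = hh n (f (fstp n x), s (sndp n x)) := rfl

theorem mix_bij (n : ℕ) {f s : C(X, X)} (hf : Bijective f) (hs : Bijective s) :
    Bijective (mix n f s) := by
  constructor
  · intro x y h
    rw [mix_apply, mix_apply] at h
    have h1 := congrArg (fstp n) h
    have h2 := congrArg (sndp n) h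
    rw [fstp_hh, fstp_hh] at h1
    rw [sndp_hh, sndp_hh] at h2
    rw [← hh_split n x, ← hh_split n y, hf.1 h1, hs.1 h2]
  · intro y
    obtain ⟨a, ha⟩ := hf.2 (fstp n y)
    obtain ⟨b, hb⟩ := hs.2 (sndp n y)
    refine ⟨hh n (a, b), ?_⟩
    rw [mix_apply, fstp_hh, sndp_hh, ha, hb, hh_split]

theorem tendsto_mix (f s : C(X, X)) : Tendsto (fun n => mix n f s) atTop (𝓝 f) := by
  apply tendsto_of_agree
  intro K
  obtain ⟨N, hN⟩ := exists_modulus f K
  filter_upwards [eventually_ge_atTop N, eventually_ge_atTop K] with n h1 h2 x i hi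
  rw [mix_apply, hh_agree n _ i (lt_of_lt_of_le hi h2)]
  refine hN _ _ (fun j hj => ?_) i hi
  rw [fstp_agree n x j (lt_of_lt_of_le hj h1)]

def sC : C(X, X) := ⟨sgen, continuous_sgen⟩
def tC : C(X, X) := ⟨tgen, continuous_tgen⟩

theorem dense_O : Dense O := by
  intro q
  let Q : ℕ → Pairs := fun n => ⟨(mix n q.1.1 sC, mix n q.1.2 tC),
    mix_bij n q.2.1 bij_sgen, mix_bij n q.2.2 bij_tgen⟩
  have hQ : Tendsto Q atTop (𝓝 q) := by
    rw [tendsto_subtype_rng]
    exact (tendsto_mix _ _).prodMk_nhds (tendsto_mix _ _)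
  refine mem_closure_of_tendsto hQ (Eventually.of_forall fun n => ?_)
  have hc : Continuous (fun x => pY (sndp n x)) := by
    have : Continuous pY := (continuous_apply 0).prodMk (continuous_apply 1)
    exact this.comp (continuous_sndp n)
  refine ⟨⟨fun x => pY (sndp n x), hc⟩, ?_, ?_⟩
  · intro x hx
    change pY (sndp n (mix n q.1.1 sC x)) = _
    rw [mix_apply, sndp_hh]
    exact pointed_Y.s _ hx
  · intro x hx
    change pY (sndp n (mix n q.1.2 tC x)) = _
    rw [mix_apply, sndp_hh]
    exact pointed_Y.t _ hx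

theorem O_residual : O ∈ residual Pairs := residual_of_dense_open isOpen_O dense_O

end Pool.Agent.Y566.GenF2
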